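import Pool.Agent.X320.CF.Top

/-! Characteristic polynomials of twists. -/

set_option autoImplicit false
set_option linter.all false

namespace Pool.Agent.X320.CF

open Matrix Module Polynomial

variable {k : Type*} [Field k] {n : ℕ}

theorem eval_charpoly' (M : Matrix (Fin n) (Fin n) k) (x : k) :
    M.charpoly.eval x = (x • (1 : Matrix (Fin n) (Fin n) k) - M).det := by
  rw [Matrix.eval_charpoly]
  congr 2
  rw [Matrix.scalar_apply, ← Matrix.smul_one_eq_diagonal]

theorem charpoly_scale [Infinite k] {c : k} (hc : c ≠ 0) (M : Matrix (Fin n) (Fin n) k) :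
    (c • M).charpoly = M.charpoly.scaleRoots c := by
  refine Polynomial.funext fun x => ?_
  have hx : x = c * (c⁻¹ * x) := by rw [mul_inv_cancel_left₀ hc]
  rw [hx, scaleRoots_eval_mul, eval_charpoly', eval_charpoly', Matrix.charpoly_natDegree_eq_dim, Fintype.card_fin]
  rw [mul_smul, ← smul_sub, Matrix.det_smul, Fintype.card_fin]

theorem charpoly_conj {P Q : Matrix (Fin n) (Fin n) k} (hQP : Q * P = 1) (M : Matrix (Fin n) (Fin n) k) :
    (P * M * Q).charpoly = M.charpoly := by
  rw [Matrix.charpoly_mul_comm, ← mul_assoc, hQP, one_mul]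

theorem coeff_twist [Infinite k] {P Q : Matrix (Fin n) (Fin n) k} (hQP : Q * P = 1) {c : k} (hc : c ≠ 0)
    (M : Matrix (Fin n) (Fin n) k) (j : ℕ) :
    (c • (P * M * Q)).charpoly.coeff j = M.charpoly.coeff j * c ^ (n - j) := by
  rw [charpoly_scale hc, charpoly_conj hQP, coeff_scaleRoots, Matrix.charpoly_natDegree_eq_dim, Fintype.card_fin]

theorem trace_coeff (hn : 0 < n) (M : Matrix (Fin n) (Fin n) k) : M.trace = - M.charpoly.coeff (n - 1) := by
  haveI : Nonempty (Fin n) := ⟨⟨0, hn⟩⟩
  rw [Matrix.trace_eq_neg_charpoly_coeff, Fintype.card_fin]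

theorem char_ne {G : Type*} [Group G] (χ : G →* k) (g : G) : χ g ≠ 0 := by
  intro h
  have := map_mul χ g g⁻¹
  rw [mul_inv_cancel, map_one, h, zero_mul] at this
  exact one_ne_zero this

/-- subgroups with the same index -/
theorem le_of_index_le {G : Type*} [Group G] {A B : Subgroup G} (h : A ≤ B) (hA : A.index ≠ 0) (hi : A.index ≤ B.index) :
    B ≤ A := by
  have h1 := Subgroup.relIndex_mul_index h
  have hB : B.index ≠ 0 := by
    intro h0
    rw [h0, mul_zero] at h1
    exact hA h1.symm
  have h2 : A.relIndex B = 1 := by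
    have h3 : A.relIndex B ≠ 0 := by
      intro h0
      rw [h0, zero_mul] at h1
      exact hA h1.symm
    by_contra hne
    have h4 : 2 ≤ A.relIndex B := by omega
    have h5 : 2 * B.index ≤ A.index := by
      rw [← h1]
      exact Nat.mul_le_mul_right _ h4
    omega
  exact Subgroup.relIndex_eq_one.1 h2

end Pool.Agent.X320.CF
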