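import Pool.Agent.X320.CF.Lac

/-! Families of representations with countably many Frobenius traces. -/

set_option autoImplicit false
set_option linter.all false

namespace Pool.Agent.X320.CF

open MeasureTheory Topology Filter NumberField IsDedekindDomain Matrix Module Polynomial
open Pool.Agent.W401.Cheb Pool.Agent.X320.DS
open Pool.Agent.W528.Ord (dens_mono dens_nonneg dens_or exists_isFrob)

variable {K : Type} [Field K] [NumberField K] {F : Type} [Field F] [TopologicalSpace F] [IsTopologicalRing F]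
  [T2Space F] {n : ℕ} {X : Type*} {ρ : X → GK K →* GL (Fin n) F}

/-- each trace is constant or takes each value at most countably often -/
def TrFam (ρ : X → GK K →* GL (Fin n) F) : Prop :=
  ∀ g : GK K, (∀ x y, (ρ x g : Matrix (Fin n) (Fin n) F).trace = (ρ y g : Matrix (Fin n) (Fin n) F).trace) ∨
    ∀ a : F, {x | (ρ x g : Matrix (Fin n) (Fin n) F).trace = a}.Countable

/-- the places with constant traces -/
def VC (ρ : X → GK K →* GL (Fin n) F) (v : HeightOneSpectrum (𝓞 K)) : Prop :=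
  ∀ σ, IsFrob v σ → ∀ x y, (ρ x σ : Matrix (Fin n) (Fin n) F).trace = (ρ y σ : Matrix (Fin n) (Fin n) F).trace

variable (K) in
theorem countable_places : Countable (HeightOneSpectrum (𝓞 K)) := by
  have h : (Set.univ : Set (HeightOneSpectrum (𝓞 K))) ⊆ ⋃ N : ℕ, {v | Ideal.absNorm v.asIdeal ≤ N} := fun v _ =>
    Set.mem_iUnion.2 ⟨Ideal.absNorm v.asIdeal, by
      show Ideal.absNorm v.asIdeal ≤ Ideal.absNorm v.asIdeal
      exact le_rfl⟩
  have h2 : (⋃ N : ℕ, {v : HeightOneSpectrum (𝓞 K) | Ideal.absNorm v.asIdeal ≤ N}).Countable :=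
    Set.countable_iUnion fun N => (Pool.Agent.W352.ChAbs.finite_le (K := K) N).countable
  exact Set.countable_univ_iff.1 (h2.mono h)

/-- outside a countable set the places with traces in `C` are places with constant traces -/
theorem exists_exc (hf : TrFam ρ) {C : Set F} (hC : C.Countable) : ∃ B : Set X, B.Countable ∧ ∀ x, x ∉ B → ∀ v,
    (∀ σ, IsFrob v σ → (ρ x σ : Matrix (Fin n) (Fin n) F).trace ∈ C) → VC ρ v := by
  classical
  haveI := countable_places K
  have h1 : ∀ v : HeightOneSpectrum (𝓞 K), ∃ N : Set X, N.Countable ∧ ∀ x, x ∉ N →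
      (∀ σ, IsFrob v σ → (ρ x σ : Matrix (Fin n) (Fin n) F).trace ∈ C) → VC ρ v := by
    intro v
    by_cases hv : VC ρ v
    · exact ⟨∅, Set.countable_empty, fun _ _ _ => hv⟩
    · have hv' := hv
      unfold VC at hv'
      push Not at hv'
      obtain ⟨σ, hσ, x₀, y₀, hxy⟩ := hv'
      have h2 : ∀ a : F, {x | (ρ x σ : Matrix (Fin n) (Fin n) F).trace = a}.Countable := by
        rcases hf σ with h | h
        · exact absurd (h x₀ y₀) hxy
        · exact h
      refine ⟨⋃ a ∈ C, {x | (ρ x σ : Matrix (Fin n) (Fin n) F).trace = a}, hC.biUnion fun a _ => h2 a, fun x hx h => ?_⟩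
      exfalso
      exact hx (Set.mem_biUnion (h σ hσ) rfl)
  choose N hN hN2 using h1
  exact ⟨⋃ v, N v, Set.countable_iUnion hN, fun x hx v h => hN2 v x (fun h' => hx (Set.mem_iUnion.2 ⟨v, h'⟩)) h⟩

theorem exists_good (hf : TrFam ρ) {C : Set F} (hC : C.Countable) {T : Set X} (hT : ¬ T.Countable) (δ : X → ℝ)
    (h : ∀ x ∈ T, ∃ᶠ N in atTop, δ x ≤ dens (fun v : HeightOneSpectrum (𝓞 K) =>
      ∀ σ, IsFrob v σ → (ρ x σ : Matrix (Fin n) (Fin n) F).trace ∈ C) N) :
    ∃ x ∈ T, ∃ᶠ N in atTop, δ x ≤ dens (fun v : HeightOneSpectrum (𝓞 K) => VC ρ v) N := by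
  obtain ⟨B, hB, hB2⟩ := exists_exc hf hC
  obtain ⟨x, hx, hxB⟩ : ∃ x ∈ T, x ∉ B := by
    by_contra hcon
    push Not at hcon
    exact hT (hB.mono hcon)
  exact ⟨x, hx, (h x hx).mono fun N hN => hN.trans (dens_mono (fun v hv => hB2 x hxB v hv) N)⟩

theorem haar_prob : ∃ (_ : MeasurableSpace (GK K)) (_ : BorelSpace (GK K)) (μ : Measure (GK K)),
    IsProbabilityMeasure μ ∧ μ.IsMulLeftInvariant ∧ μ.Regular := by
  letI : MeasurableSpace (GK K) := borel _
  haveI : BorelSpace (GK K) := ⟨rfl⟩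
  refine ⟨borel _, ⟨rfl⟩, Measure.haarMeasure (⊤ : TopologicalSpace.PositiveCompacts (GK K)), ⟨?_⟩, inferInstance, inferInstance⟩
  have := Measure.haarMeasure_self (K₀ := (⊤ : TopologicalSpace.PositiveCompacts (GK K)))
  rwa [TopologicalSpace.PositiveCompacts.coe_top] at this

theorem trClosed {r s : GK K →* GL (Fin n) F} (hr : Continuous r) (hs : Continuous s) :
    IsClosed {x : GK K | (r x⁻¹ : Matrix (Fin n) (Fin n) F).trace = (s x⁻¹ : Matrix (Fin n) (Fin n) F).trace} :=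
  isClosed_eq (((Units.continuous_val.comp hr).comp continuous_inv).matrix_trace)
    (((Units.continuous_val.comp hs).comp continuous_inv).matrix_trace)

/-- **Large density.** -/
theorem fam_large (hf : TrFam ρ) (hc : ∀ x, Continuous (ρ x)) {x₁ : X} {δ : ℝ} (hδ : (1 - δ) * (2 * (n : ℝ) ^ 2) < 1)
    (h : ∃ᶠ N in atTop, δ ≤ dens (fun v : HeightOneSpectrum (𝓞 K) => VC ρ v) N) (x : X) (g : GK K) :
    (ρ x₁ g : Matrix (Fin n) (Fin n) F).trace = (ρ x g : Matrix (Fin n) (Fin n) F).trace := by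
  obtain ⟨i1, i2, μ, i3, i4, i5⟩ := haar_prob (K := K)
  have h1 := measure_ge_freq μ _ h _ (trClosed (hc x₁) (hc x)) (fun v hv σ hσ => by
    show (ρ x₁ (σ⁻¹)⁻¹ : Matrix (Fin n) (Fin n) F).trace = (ρ x (σ⁻¹)⁻¹ : Matrix (Fin n) (Fin n) F).trace
    rw [inv_inv]
    exact hv σ hσ x₁ x)
  have h2 : δ ≤ μ.real {y : GK K | (ρ x₁ y⁻¹ : Matrix (Fin n) (Fin n) F).trace = (ρ x y⁻¹ : Matrix (Fin n) (Fin n) F).trace} := by
    rw [measureReal_def]
    exact (ENNReal.ofReal_le_iff_le_toReal (measure_ne_top _ _)).1 h1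
  refine all_traces μ (hc x₁) (hc x) ?_ g
  have h5 : (0 : ℝ) ≤ 2 * (n : ℝ) ^ 2 := by positivity
  exact (mul_le_mul_of_nonneg_right (by linarith) h5).trans_lt hδ

/-- **Positive density.** -/
theorem fam_pos [CharZero F] (hn : 0 < n) (hf : TrFam ρ) (hc : ∀ x, Continuous (ρ x)) {x₁ : X}
    (hs : ∀ H : Subgroup (GK K), IsOpen (H : Set (GK K)) → Spans (ρ x₁) H) {δ : ℝ} (hδ : 0 < δ) (hX : ¬ Countable X)
    (h : ∃ᶠ N in atTop, δ ≤ dens (fun v : HeightOneSpectrum (𝓞 K) => VC ρ v) N) (g : GK K) (x y : X) :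
    (ρ x g : Matrix (Fin n) (Fin n) F).trace = (ρ y g : Matrix (Fin n) (Fin n) F).trace := by
  obtain ⟨i1, i2, μ, i3, i4, i5⟩ := haar_prob (K := K)
  rcases hf g with h0 | h0
  · exact h0 x y
  exfalso
  have hval : ∀ x, ∃ z : F, IsAlgebraic ℤ z ∧ (ρ x g : Matrix (Fin n) (Fin n) F).trace =
      z * (ρ x₁ g : Matrix (Fin n) (Fin n) F).trace := by
    intro x
    have h1 := measure_ge_freq μ _ h _ (trClosed (hc x₁) (hc x)) (fun v hv σ hσ => by
      show (ρ x₁ (σ⁻¹)⁻¹ : Matrix (Fin n) (Fin n) F).trace = (ρ x (σ⁻¹)⁻¹ : Matrix (Fin n) (Fin n) F).trace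
      rw [inv_inv]
      exact hv σ hσ x₁ x)
    have h3 : μ {y : GK K | (ρ x₁ y⁻¹ : Matrix (Fin n) (Fin n) F).trace = (ρ x y⁻¹ : Matrix (Fin n) (Fin n) F).trace} ≠ 0 := by
      intro h0
      rw [h0] at h1
      exact absurd h1 (not_le.2 (ENNReal.ofReal_pos.2 hδ))
    obtain ⟨A, B, χ, H, hHn, hHo, hχ, hAB, hBA, ht⟩ := twist_of_pos μ hn (hc x₁) (hc x) hs h3
    haveI : Finite (GK K ⧸ H) := Subgroup.quotient_finite_of_isOpen _ hHo
    haveI : H.FiniteIndex := Subgroup.finiteIndex_of_finite_quotient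
    haveI := hHn
    refine ⟨χ g, ?_, ?_⟩
    · have h4 : χ g ^ H.index = 1 := by
        rw [← map_pow]
        exact hχ _ (Subgroup.pow_index_mem H g)
      have h5 : IsIntegral ℤ (χ g ^ H.index) := by
        rw [h4]
        exact isIntegral_one
      exact (IsIntegral.of_pow (Nat.pos_of_ne_zero Subgroup.FiniteIndex.index_ne_zero) h5).isAlgebraic
    · rw [ht, trace_smul, Matrix.trace_mul_comm, ← mul_assoc, hBA, one_mul, smul_eq_mul]
  have h6 : {z : F | IsAlgebraic ℤ z}.Countable := Algebraic.countable ℤ F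
  apply hX
  rw [← Set.countable_univ_iff]
  refine ((h6.biUnion (t := fun z _ => {x | (ρ x g : Matrix (Fin n) (Fin n) F).trace =
    z * (ρ x₁ g : Matrix (Fin n) (Fin n) F).trace}) fun z _ => h0 _)).mono fun x _ => ?_
  obtain ⟨z, hz, he⟩ := hval x
  exact Set.mem_biUnion hz he

/-- conjugate by a matrix -/
theorem conj_of_traces {x y : X} (hx : Spans (ρ x) ⊤)
    (h : ∀ g, (ρ x g : Matrix (Fin n) (Fin n) F).trace = (ρ y g : Matrix (Fin n) (Fin n) F).trace) :
    ∃ A : GL (Fin n) F, ∀ g, ρ y g = A * ρ x g * A⁻¹ := by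
  have hy : ∀ h' ∈ (⊤ : Subgroup (GK K)), (ρ x (1 * h') : Matrix (Fin n) (Fin n) F).trace =
      (ρ y (1 * h') : Matrix (Fin n) (Fin n) F).trace := fun h' _ => h _
  obtain ⟨P, Q, hPQ, hQP, hc⟩ := exists_conj hx (spans_right hx hy) hy
  refine ⟨⟨P, Q, hPQ, hQP⟩, fun g => Units.ext ?_⟩
  exact hc g (Subgroup.mem_top g)

end Pool.Agent.X320.CF
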