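import Pool.Agent.X320.CF.Main

/-! Coefficient fields at positive density: the theorem. -/

set_option autoImplicit false
set_option linter.all false

namespace Pool.Agent.X320.CF

open MeasureTheory Topology Filter NumberField IsDedekindDomain Matrix Module Polynomial
open Pool.Agent.W401.Cheb Pool.Agent.X320.DS
open Pool.Agent.W528.Ord (dens_mono dens_nonneg dens_or exists_isFrob)

variable {K : Type} [Field K] [NumberField K] {F : Type} [Field F] [TopologicalSpace F] [IsTopologicalRing F]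
  [T2Space F] {n : ℕ} {E : Subfield ℂ} {ι : ℂ →+* F} {S : Set (HeightOneSpectrum (𝓞 K))}
  {P : HeightOneSpectrum (𝓞 K) → ℂ[X]} {ρ : (ℂ ≃+* ℂ) → GK K →* GL (Fin n) F}

/-- (a) -/
theorem Sys.part_a (D : Sys E ι S P ρ) {χ : Gam E → GK K →* F} (T : Tw E ρ χ) {U : Subgroup (GK K)}
    (hU : ∀ τ, U ≤ (χ τ).ker) {v : HeightOneSpectrum (𝓞 K)} (hv : v ∉ S) {σ : GK K} (hσU : σ ∈ U)
    (hσ : IsFrob v σ) (j : ℕ) : (P v).coeff j ∈ E := by
  refine mem_E (ι := ι) fun τ => ?_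
  rw [D.key T τ hv hσ, MonoidHom.mem_ker.1 (hU τ hσU), one_pow, mul_one]

/-- (b) -/
theorem Sys.part_b (D : Sys E ι S P ρ) {χ : Gam E → GK K →* F} (T : Tw E ρ χ) {U : Subgroup (GK K)} [U.Normal]
    (hU : ∀ τ, U ≤ (χ τ).ker) {v : HeightOneSpectrum (𝓞 K)} (hv : v ∉ S) (j : ℕ) :
    (P v).coeff j ^ U.index ∈ E := by
  obtain ⟨σ, hσ⟩ := exists_isFrob v
  refine mem_E (ι := ι) fun τ => ?_
  have h1 : χ τ σ ^ U.index = 1 := by
    rw [← map_pow]
    exact MonoidHom.mem_ker.1 (hU τ (Subgroup.pow_index_mem U σ))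
  rw [map_pow, map_pow, D.key T τ hv hσ, mul_pow, ← pow_mul, mul_comm (n - j), pow_mul, h1, one_pow, mul_one, map_pow]

/-- every class contains a Frobenius element of nonzero trace -/
theorem Sys.exists_nonzero [MeasurableSpace (GK K)] [BorelSpace (GK K)] (μ : Measure (GK K)) [IsProbabilityMeasure μ]
    [μ.IsMulLeftInvariant] [μ.Regular] (D : Sys E ι S P ρ) (U : Subgroup (GK K)) [U.Normal] (hUo : IsOpen (U : Set (GK K)))
    (hc : ∀ a b : GK K, a * b * a⁻¹ * b⁻¹ ∈ U) (g : GK K) :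
    ∃ v, v ∉ S ∧ ∃ σ, g⁻¹ * σ ∈ U ∧ IsFrob v σ ∧ (P v).coeff (n - 1) ≠ 0 := by
  by_contra hcon
  push Not at hcon
  haveI : Finite (GK K ⧸ U) := Subgroup.quotient_finite_of_isOpen _ hUo
  haveI : U.FiniteIndex := Subgroup.finiteIndex_of_finite_quotient
  have hpos : (0 : ℝ) < 1 / (U.index : ℝ) := by
    have : 0 < U.index := Nat.pos_of_ne_zero Subgroup.FiniteIndex.index_ne_zero
    positivity
  have h1 := dens_class U hUo hc g
  have h2 : ∀ᶠ N in atTop, 1 / (U.index : ℝ) / 2 ≤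
      dens (fun v : HeightOneSpectrum (𝓞 K) => ∃ σ, (g⁻¹ * σ ∈ U) ∧ IsFrob v σ) N :=
    (h1.eventually (lt_mem_nhds (half_lt_self hpos))).mono fun N hN => hN.le
  have h3 := dens_remove (Q := fun v : HeightOneSpectrum (𝓞 K) => v ∉ S ∧ ∃ σ, (g⁻¹ * σ ∈ U) ∧ IsFrob v σ) S D.fin
    (fun v hv hvS => ⟨hvS, hv⟩) (δ' := 1 / (U.index : ℝ) / 4) (by linarith) h2
  have h4 := measure_ge_freq μ _ h3.frequently (Bs ρ) D.closedB (fun v hv σ' hσ' => by
    obtain ⟨hvS, σ, hσU, hσ⟩ := hv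
    show (rho1 ρ (σ'⁻¹)⁻¹ : Matrix (Fin n) (Fin n) F).trace = 0
    rw [inv_inv, trace_coeff D.pos, D.coeff1 hvS hσ', hcon v hvS σ hσU hσ, map_zero, neg_zero])
  rw [D.nullB μ] at h4
  have := ENNReal.ofReal_eq_zero.1 (le_antisymm h4 bot_le)
  linarith

/-- (c) -/
theorem Sys.part_c [MeasurableSpace (GK K)] [BorelSpace (GK K)] (μ : Measure (GK K)) [IsProbabilityMeasure μ]
    [μ.IsMulLeftInvariant] [μ.Regular] (D : Sys E ι S P ρ) {χ : Gam E → GK K →* F} (T : Tw E ρ χ)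
    {U : Subgroup (GK K)} [U.Normal] (hUo : IsOpen (U : Set (GK K)))
    (hc : ∀ a b : GK K, a * b * a⁻¹ * b⁻¹ ∈ U) (hU : ∀ τ, U ≤ (χ τ).ker) :
    ∃ E' : IntermediateField E ℂ, FiniteDimensional E E' ∧ ∀ v, v ∉ S → ∀ j, (P v).coeff j ∈ E' := by
  haveI : Finite (GK K ⧸ U) := Subgroup.quotient_finite_of_isOpen _ hUo
  haveI : U.FiniteIndex := Subgroup.finiteIndex_of_finite_quotient
  choose w hwS σ hσU hσ hne using fun q : GK K ⧸ U => D.exists_nonzero μ U hUo hc q.out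
  refine ⟨IntermediateField.adjoin E (Set.range fun q => (P (w q)).coeff (n - 1)), ?_, fun v hv j => ?_⟩
  · refine IntermediateField.finiteDimensional_adjoin fun x hx => ?_
    obtain ⟨q, rfl⟩ := hx
    refine IsIntegral.of_pow (Nat.pos_of_ne_zero Subgroup.FiniteIndex.index_ne_zero : 0 < U.index) ?_
    exact isIntegral_algebraMap (x := (⟨_, D.part_b T hU (hwS q) (n - 1)⟩ : E))
  · obtain ⟨σ', hσ'⟩ := exists_isFrob v
    set q : GK K ⧸ U := QuotientGroup.mk σ' with hq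
    have hq' : q.out⁻¹ * σ' ∈ U := by
      rw [← QuotientGroup.eq]
      exact (QuotientGroup.out_eq' q)
    have hχ : ∀ τ, χ τ σ' = χ τ (σ q) := by
      intro τ
      have h1 := MonoidHom.mem_ker.1 (hU τ hq')
      have h2 := MonoidHom.mem_ker.1 (hU τ (hσU q))
      rw [map_mul] at h1 h2
      exact mul_left_cancel₀ (char_ne (χ τ) _) (h1.trans h2.symm)
    have h1 : (P v).coeff j / (P (w q)).coeff (n - 1) ^ (n - j) ∈ E := by
      refine mem_E (ι := ι) fun τ => ?_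
      have e1 : n - (n - 1) = 1 := by
        have := D.pos
        omega
      rw [map_div₀, map_div₀, map_div₀, map_pow, map_pow, map_pow, D.key T τ hv hσ', D.key T τ (hwS q) (hσ q), e1,
        pow_one, hχ τ, mul_pow]
      exact mul_div_mul_right _ _ (pow_ne_zero _ (char_ne (χ τ) _))
    have h2 : (P v).coeff j = (P v).coeff j / (P (w q)).coeff (n - 1) ^ (n - j) * (P (w q)).coeff (n - 1) ^ (n - j) :=
      (div_mul_cancel₀ _ (pow_ne_zero _ (hne q))).symm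
    rw [h2]
    have h3 : (P (w q)).coeff (n - 1) ∈ IntermediateField.adjoin E (Set.range fun q => (P (w q)).coeff (n - 1)) :=
      IntermediateField.subset_adjoin _ _ (Set.mem_range_self q)
    refine mul_mem ?_ (pow_mem h3 _)
    exact IntermediateField.algebraMap_mem _ (⟨_, h1⟩ : E)

/-- (d) -/
theorem Sys.part_d [MeasurableSpace (GK K)] [BorelSpace (GK K)] (μ : Measure (GK K)) [IsProbabilityMeasure μ]
    [μ.IsMulLeftInvariant] [μ.Regular] (D : Sys E ι S P ρ) {χ : Gam E → GK K →* F} (hT : Tw E ρ χ)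
    (T : Finset (Gam E)) (hU : ∀ τ, UT χ T ≤ (χ τ).ker) (Q : HeightOneSpectrum (𝓞 K) → Prop)
    (hQ1 : ∀ v, v ∉ S → (∀ j, (P v).coeff j ∈ E) → Q v) (hQ2 : ∀ v, Q v → v ∉ S ∧ (P v).coeff (n - 1) ∈ E) :
    Tendsto (dens Q) atTop (𝓝 (1 / ((UT χ T).index : ℝ))) := by
  set U := UT χ T with hUd
  have hUo : IsOpen (U : Set (GK K)) := UT_open hT.op T
  haveI : U.Normal := UT_normal χ T
  have h1 := dens_class U hUo UT_comm 1
  have h2 := h1.sub (dens_finite S D.fin)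
  rw [sub_zero] at h2
  -- the exceptional places
  have h3 : Tendsto (dens fun v => Q v ∧ ¬ ∃ σ, ((1 : GK K)⁻¹ * σ ∈ U) ∧ IsFrob v σ) atTop (𝓝 0) := by
    rw [tendsto_order]
    refine ⟨fun a ha => Eventually.of_forall fun N => ha.trans_le (dens_nonneg _ _), fun a ha => ?_⟩
    by_contra hcon
    have hfr : ∃ᶠ N in atTop, a ≤ dens (fun v => Q v ∧ ¬ ∃ σ, ((1 : GK K)⁻¹ * σ ∈ U) ∧ IsFrob v σ) N := by
      intro hev
      exact hcon (hev.mono fun N hN => not_le.1 hN)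
    have hcl : IsClosed ((U : Set (GK K))ᶜ ∩ ⋂ τ ∈ T, Zs ρ τ.1) :=
      hUo.isClosed_compl.inter (isClosed_biInter fun τ _ => D.closed τ)
    have h4 := measure_ge_freq μ _ hfr _ hcl (fun v hv σ hσ => by
      obtain ⟨hvQ, hvn⟩ := hv
      obtain ⟨hvS, ht⟩ := hQ2 v hvQ
      refine ⟨fun hin => hvn ⟨σ, ?_, hσ⟩, Set.mem_iInter₂.2 fun τ _ => D.mem_Z τ hvS ht hσ⟩
      rw [inv_one, one_mul]
      exact (Subgroup.inv_mem_iff _).1 hin)
    have h5 : μ ((U : Set (GK K))ᶜ ∩ ⋂ τ ∈ T, Zs ρ τ.1) = 0 := by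
      refine measure_mono_null ?_ (D.nullB μ)
      rintro x ⟨hxU, hx⟩
      rcases Sys.sub_UT hT T hx with h | h
      · exact absurd h hxU
      · exact h
    rw [h5] at h4
    have := ENNReal.ofReal_eq_zero.1 (le_antisymm h4 bot_le)
    linarith
  have h6 := h1.add h3
  rw [add_zero] at h6
  refine tendsto_of_tendsto_of_tendsto_of_le_of_le h2 h6 (fun N => ?_) (fun N => ?_)
  · have h7 : dens (fun v : HeightOneSpectrum (𝓞 K) => ∃ σ, ((1 : GK K)⁻¹ * σ ∈ U) ∧ IsFrob v σ) N ≤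
        dens (fun v => Q v ∨ v ∈ S) N := by
      refine dens_mono (fun v hv => ?_) N
      by_cases hvS : v ∈ S
      · exact Or.inr hvS
      · obtain ⟨σ, hσU, hσ⟩ := hv
        rw [inv_one, one_mul] at hσU
        exact Or.inl (hQ1 v hvS fun j => D.part_a hT hU hvS hσU hσ j)
    have h8 := dens_or Q (fun v => v ∈ S) N
    show dens (fun v : HeightOneSpectrum (𝓞 K) => ∃ σ, ((1 : GK K)⁻¹ * σ ∈ U) ∧ IsFrob v σ) N -
      dens (fun v => v ∈ S) N ≤ dens Q N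
    linarith
  · have h7 : dens Q N ≤ dens (fun v : HeightOneSpectrum (𝓞 K) => (∃ σ, ((1 : GK K)⁻¹ * σ ∈ U) ∧ IsFrob v σ) ∨
        (Q v ∧ ¬ ∃ σ, ((1 : GK K)⁻¹ * σ ∈ U) ∧ IsFrob v σ)) N := by
      refine dens_mono (fun v hv => ?_) N
      by_cases h : ∃ σ, ((1 : GK K)⁻¹ * σ ∈ U) ∧ IsFrob v σ
      · exact Or.inl h
      · exact Or.inr ⟨hv, h⟩
    exact h7.trans (dens_or _ _ N)

/-- **The theorem.** -/
theorem final (D : Sys E ι S P ρ) {δ : ℝ} (hδ : 0 < δ)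
    (h : ∃ᶠ N in atTop, δ ≤ dens (fun v => v ∉ S ∧ (P v).coeff (n - 1) ∈ E) N) :
    ∃ U : Subgroup (GK K), U.Normal ∧ IsOpen (U : Set (GK K)) ∧ (∀ a b : GK K, a * b * a⁻¹ * b⁻¹ ∈ U) ∧
      (U.index : ℝ) * δ ≤ 1 ∧
      (∀ v, v ∉ S → ∀ σ ∈ U, IsFrob v σ → ∀ j, (P v).coeff j ∈ E) ∧
      (∀ v, v ∉ S → ∀ j, (P v).coeff j ^ U.index ∈ E) ∧
      (∃ E' : IntermediateField E ℂ, FiniteDimensional E E' ∧ ∀ v, v ∉ S → ∀ j, (P v).coeff j ∈ E') ∧
      Tendsto (dens fun v => v ∉ S ∧ (P v).coeff (n - 1) ∈ E) atTop (𝓝 (1 / (U.index : ℝ))) ∧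
      Tendsto (dens fun v => v ∉ S ∧ ∀ j, (P v).coeff j ∈ E) atTop (𝓝 (1 / (U.index : ℝ))) := by
  classical
  letI : MeasurableSpace (GK K) := borel _
  haveI : BorelSpace (GK K) := ⟨rfl⟩
  set μ : Measure (GK K) := Measure.haarMeasure (⊤ : TopologicalSpace.PositiveCompacts (GK K)) with hμ
  haveI : IsProbabilityMeasure μ := ⟨by
    have := Measure.haarMeasure_self (K₀ := (⊤ : TopologicalSpace.PositiveCompacts (GK K)))
    rw [hμ]
    rwa [TopologicalSpace.PositiveCompacts.coe_top] at this⟩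
  obtain ⟨χ, hT⟩ := D.exists_tw μ hδ h
  obtain ⟨T, hU⟩ := D.exists_max μ hδ h hT
  haveI : (UT χ T).Normal := UT_normal χ T
  have hUo := UT_open hT.op T
  exact ⟨UT χ T, inferInstance, hUo, UT_comm, D.index_le μ hδ h hT T,
    fun v hv σ hσU hσ j => D.part_a hT hU hv hσU hσ j, fun v hv j => D.part_b hT hU hv j,
    D.part_c μ hT hUo UT_comm hU,
    D.part_d μ hT T hU _ (fun v hv hj => ⟨hv, hj _⟩) (fun v hv => hv),
    D.part_d μ hT T hU _ (fun v hv hj => ⟨hv, hj⟩) (fun v hv => ⟨hv.1, hv.2 _⟩)⟩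

end Pool.Agent.X320.CF
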