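import Pool.Agent.X320.CF.Final
import Pool.Agent.TH658.Eq.Newt

/-! Coefficient fields at density larger than `1 - 1 / (2 n²)`, without irreducibility. -/

set_option autoImplicit false
set_option linter.all false

namespace Pool.Agent.X320.CF

open MeasureTheory Topology Filter NumberField IsDedekindDomain Matrix Module Polynomial
open Pool.Agent.W401.Cheb Pool.Agent.X320.DS
open Pool.Agent.W528.Ord (dens_mono dens_nonneg dens_or exists_isFrob)

section top

variable {G : Type*} [Group G] [TopologicalSpace G] [IsTopologicalGroup G] [CompactSpace G] [MeasurableSpace G]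
  [BorelSpace G] {F : Type*} [Field F] [TopologicalSpace F] [IsTopologicalRing F] [T2Space F] {n : ℕ}

theorem all_traces (μ : Measure G) [IsProbabilityMeasure μ] [μ.IsMulLeftInvariant] {ρ θ : G →* GL (Fin n) F}
    (hρ : Continuous ρ) (hθ : Continuous θ)
    (hμ : (1 - μ.real {x | (ρ x⁻¹ : Matrix (Fin n) (Fin n) F).trace = (θ x⁻¹ : Matrix (Fin n) (Fin n) F).trace}) *
      (2 * (n : ℝ) ^ 2) < 1) (x : G) :
    (ρ x : Matrix (Fin n) (Fin n) F).trace = (θ x : Matrix (Fin n) (Fin n) F).trace := by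
  classical
  by_contra hx
  set Z : Set G := {x | (ρ x⁻¹ : Matrix (Fin n) (Fin n) F).trace = (θ x⁻¹ : Matrix (Fin n) (Fin n) F).trace} with hZ
  have hZc : IsClosed Z := isClosed_eq
    (((Units.continuous_val.comp hρ).comp continuous_inv).matrix_trace)
    (((Units.continuous_val.comp hθ).comp continuous_inv).matrix_trace)
  set R : Set ((Matrix (Fin n) (Fin n) F) × (Matrix (Fin n) (Fin n) F)) :=
    Set.range fun g => ((ρ g : Matrix (Fin n) (Fin n) F), (θ g : Matrix (Fin n) (Fin n) F)) with hR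
  obtain ⟨f, hf, hspan, -⟩ := Submodule.exists_fun_fin_finrank_span_eq F R
  choose g hfg using hf
  have hcov : (Set.univ : Set G) ⊆ ⋃ i, (fun x => (g i)⁻¹ * x) ⁻¹' Zᶜ := by
    intro y _
    by_contra hcon
    rw [Set.mem_iUnion] at hcon
    push Not at hcon
    apply hx
    let lam : (Matrix (Fin n) (Fin n) F) × (Matrix (Fin n) (Fin n) F) →ₗ[F] F :=
      { toFun := fun p => ((ρ y⁻¹ : Matrix (Fin n) (Fin n) F) * p.1).trace - ((θ y⁻¹ : Matrix (Fin n) (Fin n) F) * p.2).trace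
        map_add' := fun p q => by
          show ((ρ y⁻¹ : Matrix (Fin n) (Fin n) F) * (p.1 + q.1)).trace - ((θ y⁻¹ : Matrix (Fin n) (Fin n) F) * (p.2 + q.2)).trace = _
          rw [mul_add, mul_add, trace_add, trace_add]
          ring
        map_smul' := fun c p => by
          show ((ρ y⁻¹ : Matrix (Fin n) (Fin n) F) * (c • p.1)).trace - ((θ y⁻¹ : Matrix (Fin n) (Fin n) F) * (c • p.2)).trace = c • _
          rw [mul_smul_comm, mul_smul_comm, trace_smul, trace_smul, smul_sub] }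
    have hlam : ∀ h : G, lam ((ρ h : Matrix (Fin n) (Fin n) F), (θ h : Matrix (Fin n) (Fin n) F)) =
        (ρ (y⁻¹ * h) : Matrix (Fin n) (Fin n) F).trace - (θ (y⁻¹ * h) : Matrix (Fin n) (Fin n) F).trace := by
      intro h
      show ((ρ y⁻¹ : Matrix (Fin n) (Fin n) F) * (ρ h : Matrix (Fin n) (Fin n) F)).trace -
        ((θ y⁻¹ : Matrix (Fin n) (Fin n) F) * (θ h : Matrix (Fin n) (Fin n) F)).trace = _
      rw [← Units.val_mul, ← Units.val_mul, ← map_mul, ← map_mul]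
    have h1 : Submodule.span F (Set.range f) ≤ LinearMap.ker lam := by
      rw [Submodule.span_le]
      rintro _ ⟨i, rfl⟩
      show lam (f i) = 0
      rw [← hfg i, hlam]
      have h2 := hcon i
      rw [Set.mem_preimage, Set.notMem_compl_iff] at h2
      have e : ((g i)⁻¹ * y)⁻¹ = y⁻¹ * g i := by group
      have h3 : (ρ ((g i)⁻¹ * y)⁻¹ : Matrix (Fin n) (Fin n) F).trace = (θ ((g i)⁻¹ * y)⁻¹ : Matrix (Fin n) (Fin n) F).trace := h2
      rw [e] at h3
      rw [h3, sub_self]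
    rw [hspan] at h1
    have h4 := h1 (Submodule.subset_span ⟨y * x, rfl⟩)
    have h5 : lam ((ρ (y * x) : Matrix (Fin n) (Fin n) F), (θ (y * x) : Matrix (Fin n) (Fin n) F)) = 0 := h4
    rw [hlam, inv_mul_cancel_left] at h5
    exact sub_eq_zero.1 h5
  have h1 : (1 : ENNReal) ≤ ∑ i, μ ((fun x => (g i)⁻¹ * x) ⁻¹' Zᶜ) := by
    rw [← measure_univ (μ := μ)]
    exact (measure_mono hcov).trans (measure_iUnion_fintype_le _ _)
  have h2 : ∀ i, μ ((fun x => (g i)⁻¹ * x) ⁻¹' Zᶜ) = μ Zᶜ := fun i => measure_preimage_mul μ _ _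
  rw [Finset.sum_congr rfl fun i _ => h2 i, Finset.sum_const, Finset.card_univ, Fintype.card_fin, nsmul_eq_mul] at h1
  have h3 : (1 : ℝ) ≤ (Module.finrank F (Submodule.span F R) : ℝ) * μ.real Zᶜ := by
    have h4 := ENNReal.toReal_mono (ENNReal.mul_ne_top (ENNReal.natCast_ne_top _) (measure_ne_top μ _)) h1
    rw [ENNReal.toReal_one, ENNReal.toReal_mul, ENNReal.toReal_natCast] at h4
    exact h4
  have h5 : μ.real Zᶜ = 1 - μ.real Z := by
    rw [measureReal_compl hZc.measurableSet, probReal_univ]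
  have h6 : (Module.finrank F (Submodule.span F R) : ℝ) ≤ 2 * (n : ℝ) ^ 2 := by
    have h7 := Submodule.finrank_le (Submodule.span F R)
    have h8 : Module.finrank F ((Matrix (Fin n) (Fin n) F) × (Matrix (Fin n) (Fin n) F)) = 2 * n ^ 2 := by
      rw [Module.finrank_prod, Module.finrank_matrix, Module.finrank_self, Fintype.card_fin]
      ring
    rw [h8] at h7
    exact_mod_cast h7
  have h9 : 0 ≤ μ.real Zᶜ := measureReal_nonneg
  rw [h5] at h3 h9
  have h10 := mul_le_mul_of_nonneg_right h6 h9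
  linarith [mul_comm (1 - μ.real Z) (2 * (n : ℝ) ^ 2)]

end top

variable {K : Type} [Field K] [NumberField K] {F : Type} [Field F] [TopologicalSpace F] [IsTopologicalRing F]
  [T2Space F] {n : ℕ} {E : Subfield ℂ} {ι : ℂ →+* F} {S : Set (HeightOneSpectrum (𝓞 K))}
  {P : HeightOneSpectrum (𝓞 K) → ℂ[X]} {ρ : (ℂ ≃+* ℂ) → GK K →* GL (Fin n) F}

/-- **The theorem for large density.** -/
theorem final0 (hn : 0 < n) (hc : ∀ τ : ℂ ≃+* ℂ, (∀ x ∈ E, τ x = x) → Continuous (ρ τ))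
    (hf : ∀ τ : ℂ ≃+* ℂ, (∀ x ∈ E, τ x = x) → ∀ v, v ∉ S → ∀ σ, IsFrob v σ →
      (ρ τ σ : Matrix (Fin n) (Fin n) F).charpoly = (P v).map (ι.comp (τ : ℂ →+* ℂ)))
    {δ : ℝ} (hδ : (1 - δ) * (2 * (n : ℝ) ^ 2) < 1)
    (h : ∃ᶠ N in atTop, δ ≤ dens (fun v => v ∉ S ∧ (P v).coeff (n - 1) ∈ E) N) {v : HeightOneSpectrum (𝓞 K)}
    (hv : v ∉ S) (j : ℕ) : (P v).coeff j ∈ E := by
  classical
  haveI : CharZero F := charZero_of_injective_ringHom (f := ι) ι.injective
  letI : MeasurableSpace (GK K) := borel _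
  haveI : BorelSpace (GK K) := ⟨rfl⟩
  set μ : Measure (GK K) := Measure.haarMeasure (⊤ : TopologicalSpace.PositiveCompacts (GK K)) with hμ
  haveI : IsProbabilityMeasure μ := ⟨by
    have := Measure.haarMeasure_self (K₀ := (⊤ : TopologicalSpace.PositiveCompacts (GK K)))
    rw [hμ]
    rwa [TopologicalSpace.PositiveCompacts.coe_top] at this⟩
  have hco : ∀ (τ : Gam E) {v : HeightOneSpectrum (𝓞 K)}, v ∉ S → ∀ {σ : GK K}, IsFrob v σ → ∀ j,
      (ρ τ.1 σ : Matrix (Fin n) (Fin n) F).charpoly.coeff j = ι (τ.1 ((P v).coeff j)) := by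
    intro τ v hv σ hσ j
    rw [hf τ.1 τ.2 v hv σ hσ, Polynomial.coeff_map]
    rfl
  have hco1 : ∀ {v : HeightOneSpectrum (𝓞 K)}, v ∉ S → ∀ {σ : GK K}, IsFrob v σ → ∀ j,
      (rho1 ρ σ : Matrix (Fin n) (Fin n) F).charpoly.coeff j = ι ((P v).coeff j) := fun hv _ hσ j =>
    hco ⟨RingEquiv.refl ℂ, one_fix⟩ hv hσ j
  refine mem_E (ι := ι) fun τ => ?_
  have hcl : IsClosed (Zs ρ τ.1) := isClosed_eq
    (((Units.continuous_val.comp (hc _ one_fix)).comp continuous_inv).matrix_trace)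
    (((Units.continuous_val.comp (hc τ.1 τ.2)).comp continuous_inv).matrix_trace)
  have h1 := measure_ge_freq μ _ h (Zs ρ τ.1) hcl (fun v hv σ hσ => by
    show (rho1 ρ (σ⁻¹)⁻¹ : Matrix (Fin n) (Fin n) F).trace = (ρ τ.1 (σ⁻¹)⁻¹ : Matrix (Fin n) (Fin n) F).trace
    rw [inv_inv, trace_coeff hn, trace_coeff hn, hco τ hv.1 hσ, hco1 hv.1 hσ, τ.2 _ hv.2])
  have h2 : δ ≤ μ.real (Zs ρ τ.1) := by
    rw [measureReal_def]
    exact (ENNReal.ofReal_le_iff_le_toReal (measure_ne_top _ _)).1 h1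
  have h3 : ∀ x, (rho1 ρ x : Matrix (Fin n) (Fin n) F).trace = (ρ τ.1 x : Matrix (Fin n) (Fin n) F).trace := by
    refine all_traces μ (hc _ one_fix) (hc τ.1 τ.2) ?_
    have h5 : (0 : ℝ) ≤ 2 * (n : ℝ) ^ 2 := by positivity
    exact (mul_le_mul_of_nonneg_right (by
      show 1 - μ.real (Zs ρ τ.1) ≤ 1 - δ
      linarith) h5).trans_lt hδ
  obtain ⟨σ, hσ⟩ := exists_isFrob v
  have h4 : (rho1 ρ σ : Matrix (Fin n) (Fin n) F).charpoly = (ρ τ.1 σ : Matrix (Fin n) (Fin n) F).charpoly := by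
    refine Pool.Agent.TH658.Eq.charpoly_eq_of_traces _ _ fun m => ?_
    rw [← Units.val_pow_eq_pow_val, ← map_pow, ← Units.val_pow_eq_pow_val, ← map_pow]
    exact h3 _
  rw [← hco τ hv hσ, ← hco1 hv hσ, h4]

end Pool.Agent.X320.CF
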