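import Pool.Agent.X320.CF.Sys

/-! Coefficient fields at positive density. -/

set_option autoImplicit false
set_option linter.all false

namespace Pool.Agent.X320.CF

open MeasureTheory Topology Filter NumberField IsDedekindDomain Matrix Module Polynomial
open Pool.Agent.W401.Cheb Pool.Agent.X320.DS
open Pool.Agent.W528.Ord (dens_mono dens_nonneg dens_or exists_isFrob)

variable {K : Type} [Field K] [NumberField K] {F : Type} [Field F] [TopologicalSpace F] [IsTopologicalRing F]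
  [T2Space F] {n : ℕ} {E : Subfield ℂ} {ι : ℂ →+* F} {S : Set (HeightOneSpectrum (𝓞 K))}
  {P : HeightOneSpectrum (𝓞 K) → ℂ[X]} {ρ : (ℂ ≃+* ℂ) → GK K →* GL (Fin n) F}

/-- the intersection of finitely many kernels -/
noncomputable def UT (χ : Gam E → GK K →* F) (T : Finset (Gam E)) : Subgroup (GK K) := ⨅ τ ∈ T, (χ τ).ker

omit [TopologicalSpace F] [IsTopologicalRing F] [T2Space F] in
theorem mem_UT {χ : Gam E → GK K →* F} {T : Finset (Gam E)} {x : GK K} : x ∈ UT χ T ↔ ∀ τ ∈ T, χ τ x = 1 := by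
  simp only [UT, Subgroup.mem_iInf, MonoidHom.mem_ker]

omit [TopologicalSpace F] [IsTopologicalRing F] [T2Space F] in
theorem UT_open {χ : Gam E → GK K →* F} (h : ∀ τ, IsOpen ((χ τ).ker : Set (GK K))) (T : Finset (Gam E)) :
    IsOpen (UT χ T : Set (GK K)) := by
  have e : (UT χ T : Set (GK K)) = ⋂ τ ∈ T, ((χ τ).ker : Set (GK K)) := by
    ext x
    simp only [SetLike.mem_coe, mem_UT, Set.mem_iInter, MonoidHom.mem_ker]
  rw [e]
  exact isOpen_biInter_finset fun τ _ => h τ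

omit [TopologicalSpace F] [IsTopologicalRing F] [T2Space F] in
theorem UT_comm {χ : Gam E → GK K →* F} {T : Finset (Gam E)} (a b : GK K) : a * b * a⁻¹ * b⁻¹ ∈ UT χ T := by
  rw [mem_UT]
  intro τ _
  have ha : χ τ a * χ τ a⁻¹ = 1 := by rw [← map_mul, mul_inv_cancel, map_one]
  have hb : χ τ b * χ τ b⁻¹ = 1 := by rw [← map_mul, mul_inv_cancel, map_one]
  rw [map_mul, map_mul, map_mul]
  calc χ τ a * χ τ b * χ τ a⁻¹ * χ τ b⁻¹ = (χ τ a * χ τ a⁻¹) * (χ τ b * χ τ b⁻¹) := by ring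
    _ = 1 := by rw [ha, hb, one_mul]

omit [TopologicalSpace F] [IsTopologicalRing F] [T2Space F] in
theorem UT_normal (χ : Gam E → GK K →* F) (T : Finset (Gam E)) : (UT χ T).Normal := by
  refine ⟨fun x hx g => ?_⟩
  rw [mem_UT] at hx ⊢
  intro τ hτ
  have ha : χ τ g * χ τ g⁻¹ = 1 := by rw [← map_mul, mul_inv_cancel, map_one]
  rw [map_mul, map_mul, hx τ hτ, mul_one, ha]

theorem Sys.sub_UT {χ : Gam E → GK K →* F} (hT : Tw E ρ χ) (T : Finset (Gam E)) :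
    (⋂ τ ∈ T, Zs ρ τ.1) ⊆ (UT χ T : Set (GK K)) ∪ Bs ρ := by
  intro x hx
  by_cases hB : x ∈ Bs ρ
  · exact Or.inr hB
  · refine Or.inl ?_
    rw [SetLike.mem_coe, mem_UT]
    intro τ hτ
    rw [Set.mem_iInter₂] at hx
    exact MonoidHom.mem_ker.1 (mem_of_Z hT τ (hx τ hτ) hB)

section

variable [MeasurableSpace (GK K)] [BorelSpace (GK K)] (μ : Measure (GK K)) [IsProbabilityMeasure μ]
  [μ.IsMulLeftInvariant] [μ.Regular]

include μ

theorem Sys.exists_tw (D : Sys E ι S P ρ) {δ : ℝ} (hδ : 0 < δ)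
    (h : ∃ᶠ N in atTop, δ ≤ dens (fun v => v ∉ S ∧ (P v).coeff (n - 1) ∈ E) N) :
    ∃ χ : Gam E → GK K →* F, Tw E ρ χ := by
  have h1 : ∀ τ : Gam E, ∃ χ : GK K →* F, IsOpen (χ.ker : Set (GK K)) ∧ ∃ A B : Matrix (Fin n) (Fin n) F, B * A = 1 ∧
      ∀ g, (ρ τ.1 g : Matrix (Fin n) (Fin n) F) = χ g • (A * (rho1 ρ g : Matrix (Fin n) (Fin n) F) * B) := by
    intro τ
    have h2 := measure_ge_freq μ _ h (Zs ρ τ.1) (D.closed τ) (fun v hv σ hσ => D.mem_Z τ hv.1 hv.2 hσ)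
    have h3 : μ (Zs ρ τ.1) ≠ 0 := by
      intro h0
      rw [h0] at h2
      exact absurd h2 (not_le.2 (ENNReal.ofReal_pos.2 hδ))
    obtain ⟨A, B, χ, H, -, hHo, hχ, hAB, hBA, ht⟩ := twist_of_pos μ D.pos (D.cont _ one_fix) (D.cont τ.1 τ.2)
      D.str h3
    exact ⟨χ, Subgroup.isOpen_mono (fun x hx => MonoidHom.mem_ker.2 (hχ x hx)) hHo, A, B, hBA, ht⟩
  choose χ hχ using h1
  exact ⟨χ, fun τ => (hχ τ).1, fun τ => (hχ τ).2⟩

theorem Sys.nullB (D : Sys E ι S P ρ) : μ (Bs ρ) = 0 :=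
  null_tr μ D.pos (D.cont _ one_fix) D.str

theorem Sys.index_le (D : Sys E ι S P ρ) {δ : ℝ} (hδ : 0 < δ)
    (h : ∃ᶠ N in atTop, δ ≤ dens (fun v => v ∉ S ∧ (P v).coeff (n - 1) ∈ E) N) {χ : Gam E → GK K →* F}
    (hT : Tw E ρ χ) (T : Finset (Gam E)) : ((UT χ T).index : ℝ) * δ ≤ 1 := by
  classical
  have h1 := measure_ge_freq μ _ h (⋂ τ ∈ T, Zs ρ τ.1) (isClosed_biInter fun τ _ => D.closed τ)
    (fun v hv σ hσ => Set.mem_iInter₂.2 fun τ _ => D.mem_Z τ hv.1 hv.2 hσ)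
  have h2 : ENNReal.ofReal δ ≤ μ (UT χ T : Set (GK K)) := by
    refine h1.trans ((measure_mono (Sys.sub_UT hT T)).trans ((measure_union_le _ _).trans ?_))
    rw [D.nullB μ, add_zero]
  have ho := UT_open hT.op T
  haveI : Finite (GK K ⧸ UT χ T) := Subgroup.quotient_finite_of_isOpen _ ho
  haveI : Fintype (GK K ⧸ UT χ T) := Fintype.ofFinite _
  have h3 := index_mul_le μ (UT χ T) ((UT χ T).isClosed_of_isOpen ho) Finset.univ
  have h4 : ((UT χ T).index : ENNReal) * ENNReal.ofReal δ ≤ 1 := by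
    refine le_trans (mul_le_mul_right h2 _) ?_
    rw [Finset.card_univ, ← Nat.card_eq_fintype_card] at h3
    exact h3
  have h5 : ENNReal.ofReal (((UT χ T).index : ℝ) * δ) ≤ 1 := by
    rw [ENNReal.ofReal_mul (Nat.cast_nonneg _), ENNReal.ofReal_natCast]
    exact h4
  exact ENNReal.ofReal_le_one.1 h5

/-- the smallest intersection -/
theorem Sys.exists_max (D : Sys E ι S P ρ) {δ : ℝ} (hδ : 0 < δ)
    (h : ∃ᶠ N in atTop, δ ≤ dens (fun v => v ∉ S ∧ (P v).coeff (n - 1) ∈ E) N) {χ : Gam E → GK K →* F}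
    (hT : Tw E ρ χ) : ∃ T : Finset (Gam E), ∀ τ, UT χ T ≤ (χ τ).ker := by
  classical
  set s : Set ℕ := Set.range fun T : Finset (Gam E) => (UT χ T).index with hs
  have hb : BddAbove s := by
    refine ⟨⌊1 / δ⌋₊, ?_⟩
    rintro _ ⟨T, rfl⟩
    have h1 := D.index_le μ hδ h hT T
    exact Nat.le_floor ((le_div_iff₀ hδ).2 h1)
  have hne : s.Nonempty := ⟨_, ⟨∅, rfl⟩⟩
  obtain ⟨T, hTm⟩ := Nat.sSup_mem hne hb
  refine ⟨T, fun τ => ?_⟩
  have h1 : UT χ (insert τ T) ≤ UT χ T := by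
    intro x hx
    rw [mem_UT] at hx ⊢
    exact fun τ' hτ' => hx τ' (Finset.mem_insert_of_mem hτ')
  have h2 : (UT χ (insert τ T)).index ≤ (UT χ T).index := by
    rw [show (UT χ T).index = sSup s from hTm]
    exact le_csSup hb ⟨insert τ T, rfl⟩
  haveI : Finite (GK K ⧸ UT χ (insert τ T)) := Subgroup.quotient_finite_of_isOpen _ (UT_open hT.op _)
  have h3 : (UT χ (insert τ T)).index ≠ 0 := by
    haveI : (UT χ (insert τ T)).FiniteIndex := Subgroup.finiteIndex_of_finite_quotient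
    exact Subgroup.FiniteIndex.index_ne_zero
  have h4 := le_of_index_le h1 h3 h2
  intro x hx
  have h5 := h4 hx
  rw [mem_UT] at h5
  exact MonoidHom.mem_ker.2 (h5 τ (Finset.mem_insert_self _ _))

end

/-- density of a class of an open normal subgroup with commutative quotient -/
theorem dens_class (U : Subgroup (GK K)) [U.Normal] (hU : IsOpen (U : Set (GK K)))
    (hc : ∀ a b : GK K, a * b * a⁻¹ * b⁻¹ ∈ U) (g : GK K) :
    Tendsto (dens fun v : HeightOneSpectrum (𝓞 K) => ∃ σ, (g⁻¹ * σ ∈ U) ∧ IsFrob v σ) atTop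
      (𝓝 (1 / (U.index : ℝ))) := by
  classical
  haveI : Finite (GK K ⧸ U) := Subgroup.quotient_finite_of_isOpen _ hU
  have key := Pool.Agent.W528.Ord.chebK K U hU {σ | g⁻¹ * σ ∈ U} ?_ ?_
  · have e : ((QuotientGroup.mk : GK K → GK K ⧸ U) '' {σ | g⁻¹ * σ ∈ U}) = {QuotientGroup.mk g} := by
      ext q
      constructor
      · rintro ⟨σ, hσ, rfl⟩
        exact (QuotientGroup.eq.2 hσ).symm
      · intro hq
        rw [Set.mem_singleton_iff] at hq
        refine ⟨g, ?_, hq.symm⟩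
        show g⁻¹ * g ∈ U
        rw [inv_mul_cancel]
        exact U.one_mem
    rw [e, Set.ncard_singleton, Nat.cast_one] at key
    exact key
  · intro σ hσ τ
    have h1 : g⁻¹ * (τ * σ * τ⁻¹) = (g⁻¹ * (τ * σ * τ⁻¹ * σ⁻¹) * g) * (g⁻¹ * σ) := by group
    show g⁻¹ * (τ * σ * τ⁻¹) ∈ U
    rw [h1]
    refine U.mul_mem ?_ hσ
    have := ‹U.Normal›.conj_mem _ (hc τ σ) g⁻¹
    rwa [inv_inv] at this
  · intro σ hσ u hu
    show g⁻¹ * (σ * u) ∈ U
    rw [← mul_assoc]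
    exact U.mul_mem hσ hu

end Pool.Agent.X320.CF
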