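import Mathlib

/-! Representations whose traces agree on a coset are twists of each other. -/

set_option autoImplicit false
set_option linter.all false

namespace Pool.Agent.X320.CF

open Matrix Module

variable {G : Type*} [Group G] {k : Type*} [Field k] {n : ℕ}

/-- the matrices `ρ (h)`, `h ∈ H`, span the space of all matrices -/
def Spans (ρ : G →* GL (Fin n) k) (H : Subgroup G) : Prop :=
  Submodule.span k ((fun h => (ρ h : Matrix (Fin n) (Fin n) k)) '' (H : Set G)) = ⊤

theorem ext_tr {M : Matrix (Fin n) (Fin n) k} (h : ∀ X : Matrix (Fin n) (Fin n) k, (X * M).trace = 0) : M = 0 := by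
  ext i j
  have := h (Matrix.single j i 1)
  rw [Matrix.trace_single_mul] at this
  simpa using this

/-- the algebra homomorphism of the group algebra of `H` -/
noncomputable def phi (ρ : G →* GL (Fin n) k) (H : Subgroup G) : MonoidAlgebra k H →ₐ[k] Matrix (Fin n) (Fin n) k :=
  MonoidAlgebra.lift k _ H ((Units.coeHom _).comp (ρ.comp H.subtype))

theorem phi_of (ρ : G →* GL (Fin n) k) (H : Subgroup G) (h : H) :
    phi ρ H (MonoidAlgebra.of k H h) = (ρ h : Matrix (Fin n) (Fin n) k) := by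
  rw [phi, MonoidAlgebra.lift_of]
  rfl

theorem phi_surj {ρ : G →* GL (Fin n) k} {H : Subgroup G} (h : Spans ρ H) : Function.Surjective (phi ρ H) := by
  have h1 : LinearMap.range (phi ρ H).toLinearMap = ⊤ := by
    rw [eq_top_iff, ← h, Submodule.span_le]
    rintro _ ⟨x, hx, rfl⟩
    exact ⟨MonoidAlgebra.of k H ⟨x, hx⟩, phi_of ρ H ⟨x, hx⟩⟩
  exact LinearMap.range_eq_top.1 h1

theorem phi_tr {ρ θ : G →* GL (Fin n) k} {H : Subgroup G} {y : G}
    (hy : ∀ h ∈ H, (ρ (y * h) : Matrix (Fin n) (Fin n) k).trace = (θ (y * h) : Matrix (Fin n) (Fin n) k).trace)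
    (a : MonoidAlgebra k H) : ((ρ y : Matrix (Fin n) (Fin n) k) * phi ρ H a).trace =
      ((θ y : Matrix (Fin n) (Fin n) k) * phi θ H a).trace := by
  induction a using MonoidAlgebra.induction_on with
  | of g =>
    rw [phi_of, phi_of, ← Units.val_mul, ← Units.val_mul, ← map_mul, ← map_mul]
    exact hy g g.2
  | add a b ha hb => rw [map_add, map_add, mul_add, mul_add, trace_add, trace_add, ha, hb]
  | smul r a ha => rw [map_smul, map_smul, mul_smul_comm, mul_smul_comm, trace_smul, trace_smul, ha]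

theorem ker_le {ρ θ : G →* GL (Fin n) k} {H : Subgroup G} {y : G} (h2 : Spans θ H)
    (hy : ∀ h ∈ H, (ρ (y * h) : Matrix (Fin n) (Fin n) k).trace = (θ (y * h) : Matrix (Fin n) (Fin n) k).trace)
    (a : MonoidAlgebra k H) (ha : phi ρ H a = 0) : phi θ H a = 0 := by
  have h3 : phi θ H a * (θ y : Matrix (Fin n) (Fin n) k) = 0 := by
    apply ext_tr
    intro X
    obtain ⟨b, rfl⟩ := phi_surj h2 X
    rw [← mul_assoc, Matrix.trace_mul_comm, ← map_mul, ← phi_tr hy, map_mul, ha, mul_zero, mul_zero, trace_zero]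
  have h4 : phi θ H a = phi θ H a * (θ y : Matrix (Fin n) (Fin n) k) * (θ y⁻¹ : Matrix (Fin n) (Fin n) k) := by
    rw [mul_assoc, ← Units.val_mul, ← map_mul, mul_inv_cancel, map_one, Units.val_one, mul_one]
  rw [h4, h3, zero_mul]

/-- the second representation spans as well -/
theorem spans_right {ρ θ : G →* GL (Fin n) k} {H : Subgroup G} {y : G} (h1 : Spans ρ H)
    (hy : ∀ h ∈ H, (ρ (y * h) : Matrix (Fin n) (Fin n) k).trace = (θ (y * h) : Matrix (Fin n) (Fin n) k).trace) :
    Spans θ H := by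
  have hk2 : ∀ a, phi θ H a = 0 → phi ρ H a = 0 := ker_le h1 fun h hh => (hy h hh).symm
  let f : MonoidAlgebra k H →ₗ[k] Matrix (Fin n) (Fin n) k := (phi θ H).toLinearMap
  obtain ⟨t, ht⟩ := LinearMap.exists_rightInverse_of_surjective f.rangeRestrict f.range_rangeRestrict
  have ht' : ∀ X, f.rangeRestrict (t X) = X := fun X => LinearMap.congr_fun ht X
  have hsurj : Function.Surjective ((phi ρ H).toLinearMap.comp t) := by
    intro X
    obtain ⟨v, rfl⟩ := phi_surj h1 X
    refine ⟨f.rangeRestrict v, ?_⟩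
    have h2 : phi θ H (t (f.rangeRestrict v) - v) = 0 := by
      have h3 := congrArg Subtype.val (ht' (f.rangeRestrict v))
      have h4 : phi θ H (t (f.rangeRestrict v)) = phi θ H v := h3
      rw [map_sub, h4, sub_self]
    have h5 := hk2 _ h2
    rw [map_sub] at h5
    exact sub_eq_zero.1 h5
  have hr : LinearMap.range f = ⊤ := by
    apply Submodule.eq_top_of_finrank_eq
    apply le_antisymm (Submodule.finrank_le _)
    exact LinearMap.finrank_le_finrank_of_surjective hsurj
  rw [Spans, eq_top_iff, ← hr]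
  rintro _ ⟨a, rfl⟩
  show phi θ H a ∈ _
  induction a using MonoidAlgebra.induction_on with
  | of g =>
    rw [phi_of]
    exact Submodule.subset_span ⟨g, g.2, rfl⟩
  | add a b ha hb => rw [map_add]; exact Submodule.add_mem _ ha hb
  | smul r a ha => rw [map_smul]; exact Submodule.smul_mem _ _ ha

/-- **Skolem-Noether.** -/
theorem exists_conj {ρ θ : G →* GL (Fin n) k} {H : Subgroup G} {y : G} (h1 : Spans ρ H) (h2 : Spans θ H)
    (hy : ∀ h ∈ H, (ρ (y * h) : Matrix (Fin n) (Fin n) k).trace = (θ (y * h) : Matrix (Fin n) (Fin n) k).trace) :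
    ∃ P Q : Matrix (Fin n) (Fin n) k, P * Q = 1 ∧ Q * P = 1 ∧
      ∀ h ∈ H, (θ h : Matrix (Fin n) (Fin n) k) = P * (ρ h : Matrix (Fin n) (Fin n) k) * Q := by
  obtain ⟨s, hs⟩ := LinearMap.exists_rightInverse_of_surjective (phi ρ H).toLinearMap
    (LinearMap.range_eq_top.2 (phi_surj h1))
  have hs' : ∀ X, phi ρ H (s X) = X := fun X => LinearMap.congr_fun hs X
  have hk1 : ∀ a, phi ρ H a = 0 → phi θ H a = 0 := ker_le h2 hy
  have hk2 : ∀ a, phi θ H a = 0 → phi ρ H a = 0 := ker_le h1 fun h hh => (hy h hh).symm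
  let e : Matrix (Fin n) (Fin n) k →ₗ[k] Matrix (Fin n) (Fin n) k := (phi θ H).toLinearMap.comp s
  have he : ∀ a, e (phi ρ H a) = phi θ H a := by
    intro a
    have h3 : phi ρ H (s (phi ρ H a) - a) = 0 := by rw [map_sub, hs', sub_self]
    have h4 := hk1 _ h3
    rw [map_sub] at h4
    exact sub_eq_zero.1 h4
  have he1 : e 1 = 1 := by
    have := he 1
    rwa [map_one (phi ρ H), map_one (phi θ H)] at this
  have hemul : ∀ X Y, e (X * Y) = e X * e Y := by
    intro X Y
    obtain ⟨a, rfl⟩ := phi_surj h1 X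
    obtain ⟨b, rfl⟩ := phi_surj h1 Y
    rw [← map_mul, he, he, he, map_mul]
  let f0 : Matrix (Fin n) (Fin n) k →ₐ[k] Matrix (Fin n) (Fin n) k := AlgHom.ofLinearMap e he1 hemul
  have hbij : Function.Bijective f0 := by
    constructor
    · rw [injective_iff_map_eq_zero]
      intro X hX
      obtain ⟨a, rfl⟩ := phi_surj h1 X
      apply hk2
      rw [← he]
      exact hX
    · intro X
      obtain ⟨a, rfl⟩ := phi_surj h2 X
      exact ⟨phi ρ H a, he a⟩
  let f : Matrix (Fin n) (Fin n) k ≃ₐ[k] Matrix (Fin n) (Fin n) k := AlgEquiv.ofBijective f0 hbij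
  let F : Module.End k (Fin n → k) ≃ₐ[k] Module.End k (Fin n → k) :=
    (Matrix.toLinAlgEquiv' (R := k) (n := Fin n)).symm.trans (f.trans Matrix.toLinAlgEquiv')
  obtain ⟨T, hT⟩ := F.eq_linearEquivConjAlgEquiv
  refine ⟨LinearMap.toMatrix' (T : (Fin n → k) →ₗ[k] (Fin n → k)),
    LinearMap.toMatrix' (T.symm : (Fin n → k) →ₗ[k] (Fin n → k)), ?_, ?_, fun h hh => ?_⟩
  · rw [← LinearMap.toMatrix'_mul]
    have : ((T : (Fin n → k) →ₗ[k] (Fin n → k)) * (T.symm : (Fin n → k) →ₗ[k] (Fin n → k))) = 1 := by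
      ext x i
      simp
    rw [this, LinearMap.toMatrix'_one]
  · rw [← LinearMap.toMatrix'_mul]
    have : ((T.symm : (Fin n → k) →ₗ[k] (Fin n → k)) * (T : (Fin n → k) →ₗ[k] (Fin n → k))) = 1 := by
      ext x i
      simp
    rw [this, LinearMap.toMatrix'_one]
  · have h5 : f (ρ h : Matrix (Fin n) (Fin n) k) = (θ h : Matrix (Fin n) (Fin n) k) := by
      have := he (MonoidAlgebra.of k H ⟨h, hh⟩)
      rw [phi_of, phi_of] at this
      exact this
    have h6 : F (Matrix.toLin' (ρ h : Matrix (Fin n) (Fin n) k)) = Matrix.toLin' (θ h : Matrix (Fin n) (Fin n) k) := by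
      show Matrix.toLin' (f ((Matrix.toLinAlgEquiv' (R := k) (n := Fin n)).symm
        (Matrix.toLin' (ρ h : Matrix (Fin n) (Fin n) k)))) = _
      have h7 : (Matrix.toLinAlgEquiv' (R := k) (n := Fin n)).symm
        (Matrix.toLin' (ρ h : Matrix (Fin n) (Fin n) k)) = (ρ h : Matrix (Fin n) (Fin n) k) :=
        (Matrix.toLinAlgEquiv' (R := k) (n := Fin n)).symm_apply_apply _
      rw [h7, h5]
    rw [hT] at h6
    apply Matrix.toLin'.injective
    rw [← h6, Matrix.toLin'_mul, Matrix.toLin'_mul, Matrix.toLin'_toMatrix', Matrix.toLin'_toMatrix']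
    rfl

/-- **Twists.** -/
theorem exists_char (hn : 0 < n) {ρ θ : G →* GL (Fin n) k} {H : Subgroup G} [hH : H.Normal] (h2 : Spans θ H)
    {P Q : Matrix (Fin n) (Fin n) k} (hPQ : P * Q = 1) (hQP : Q * P = 1)
    (hc : ∀ h ∈ H, (θ h : Matrix (Fin n) (Fin n) k) = P * (ρ h : Matrix (Fin n) (Fin n) k) * Q) :
    ∃ χ : G →* k, (∀ h ∈ H, χ h = 1) ∧
      ∀ g, (θ g : Matrix (Fin n) (Fin n) k) = χ g • (P * (ρ g : Matrix (Fin n) (Fin n) k) * Q) := by
  set r : G → Matrix (Fin n) (Fin n) k := fun g => P * (ρ g : Matrix (Fin n) (Fin n) k) * Q with hr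
  have hrm : ∀ a b, r (a * b) = r a * r b := by
    intro a b
    show P * (ρ (a * b) : Matrix (Fin n) (Fin n) k) * Q = P * ρ a * Q * (P * ρ b * Q)
    rw [map_mul, Units.val_mul]
    calc P * ((ρ a : Matrix (Fin n) (Fin n) k) * ρ b) * Q = P * ρ a * 1 * ρ b * Q := by simp only [mul_one, mul_assoc]
      _ = P * ρ a * (Q * P) * ρ b * Q := by rw [hQP]
      _ = _ := by simp only [mul_assoc]
  have hr1 : r 1 = 1 := by
    show P * (ρ 1 : Matrix (Fin n) (Fin n) k) * Q = 1
    rw [map_one, Units.val_one, mul_one, hPQ]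
  have htm : ∀ a b, (θ (a * b) : Matrix (Fin n) (Fin n) k) = θ a * θ b := fun a b => by rw [map_mul, Units.val_mul]
  have hcomm : ∀ g, ∀ h ∈ H, r g⁻¹ * (θ g : Matrix (Fin n) (Fin n) k) * θ h = θ h * (r g⁻¹ * (θ g : Matrix (Fin n) (Fin n) k)) := by
    intro g h hh
    have e1 : (θ g : Matrix (Fin n) (Fin n) k) * θ h = θ (g * h * g⁻¹) * θ g := by
      rw [← htm, ← htm]
      congr 2
      group
    have e2 : (θ (g * h * g⁻¹) : Matrix (Fin n) (Fin n) k) = r (g * h * g⁻¹) := hc _ (hH.conj_mem h hh g)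
    have e3 : r g⁻¹ * r (g * h * g⁻¹) = r h * r g⁻¹ := by
      rw [← hrm, ← hrm]
      congr 1
      group
    rw [mul_assoc, e1, e2, ← mul_assoc, e3, mul_assoc]
    rw [show (θ h : Matrix (Fin n) (Fin n) k) = r h from hc h hh]
  have hall : ∀ g, ∀ X : Matrix (Fin n) (Fin n) k, Commute X (r g⁻¹ * (θ g : Matrix (Fin n) (Fin n) k)) := by
    intro g X
    have hX : X ∈ Submodule.span k ((fun h => (θ h : Matrix (Fin n) (Fin n) k)) '' (H : Set G)) := by
      rw [h2]
      trivial
    refine Submodule.span_induction (p := fun X _ => Commute X (r g⁻¹ * (θ g : Matrix (Fin n) (Fin n) k))) ?_ ?_ ?_ ?_ hX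
    · rintro _ ⟨h, hh, rfl⟩
      exact (hcomm g h hh).symm
    · exact Commute.zero_left _
    · exact fun a b _ _ ha hb => ha.add_left hb
    · exact fun c a _ ha => ha.smul_left c
  have hsc : ∀ g, ∃ c : k, (θ g : Matrix (Fin n) (Fin n) k) = c • r g := by
    intro g
    obtain ⟨c, hc'⟩ := Matrix.mem_range_scalar_iff_commute_single'.2 (fun i j => (hall g (Matrix.single i j 1)))
    refine ⟨c, ?_⟩
    have h7 : (θ g : Matrix (Fin n) (Fin n) k) = r g * (r g⁻¹ * (θ g : Matrix (Fin n) (Fin n) k)) := by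
      rw [← mul_assoc, ← hrm, mul_inv_cancel, hr1, one_mul]
    rw [h7, ← hc']
    rw [Matrix.scalar_apply, ← Matrix.smul_one_eq_diagonal, mul_smul_comm, mul_one]
  choose c hcg using hsc
  haveI : Nonempty (Fin n) := ⟨⟨0, hn⟩⟩
  have hne : ∀ g, r g ≠ 0 := by
    intro g h
    have := hrm g g⁻¹
    rw [mul_inv_cancel, hr1, h, zero_mul] at this
    exact one_ne_zero this
  have huniq : ∀ g (a b : k), a • r g = b • r g → a = b := by
    intro g a b h
    exact smul_left_injective k (hne g) h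
  refine ⟨⟨⟨c, ?_⟩, ?_⟩, fun h hh => ?_, hcg⟩
  · apply huniq 1
    rw [← hcg, map_one, Units.val_one, hr1, one_smul]
  · intro a b
    apply huniq (a * b)
    show c (a * b) • r (a * b) = (c a * c b) • r (a * b)
    rw [← hcg, htm, hcg a, hcg b, hrm, smul_mul_smul_comm]
  · apply huniq h
    show c h • r h = (1 : k) • r h
    rw [← hcg, one_smul]
    exact hc h hh

end Pool.Agent.X320.CF
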