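import Pool.Agent.X320.CF.Alg
import Pool.Agent.X320.FS.Final
import Pool.Agent.W528.Ord.Engine
import Pool.Agent.TH119.MX.Gal

/-! Systems of Galois representations attached to the conjugates of one family of polynomials. -/

set_option autoImplicit false
set_option linter.all false

namespace Pool.Agent.X320.CF

open MeasureTheory Topology Filter NumberField IsDedekindDomain Matrix Module Polynomial
open Pool.Agent.W401.Cheb Pool.Agent.X320.DS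
open Pool.Agent.W528.Ord (dens_mono dens_nonneg dens_or exists_isFrob)

variable {K : Type} [Field K] [NumberField K] {F : Type} [Field F] [TopologicalSpace F] [IsTopologicalRing F]
  [T2Space F] {n : ℕ}

/-- the representations `ρ τ` are continuous, the first one is strongly irreducible, and they are attached to the conjugates `τ (P v)` -/
structure Sys (E : Subfield ℂ) (ι : ℂ →+* F) (S : Set (HeightOneSpectrum (𝓞 K))) (P : HeightOneSpectrum (𝓞 K) → ℂ[X])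
    (ρ : (ℂ ≃+* ℂ) → GK K →* GL (Fin n) F) : Prop where
  pos : 0 < n
  fin : S.Finite
  cont : ∀ τ : ℂ ≃+* ℂ, (∀ x ∈ E, τ x = x) → Continuous (ρ τ)
  str : ∀ H : Subgroup (GK K), IsOpen (H : Set (GK K)) → Spans (ρ (RingEquiv.refl ℂ)) H
  frob : ∀ τ : ℂ ≃+* ℂ, (∀ x ∈ E, τ x = x) → ∀ v, v ∉ S → ∀ σ, IsFrob v σ →
    (ρ τ σ : Matrix (Fin n) (Fin n) F).charpoly = (P v).map (ι.comp (τ : ℂ →+* ℂ))

variable {E : Subfield ℂ} {ι : ℂ →+* F} {S : Set (HeightOneSpectrum (𝓞 K))} {P : HeightOneSpectrum (𝓞 K) → ℂ[X]}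
  {ρ : (ℂ ≃+* ℂ) → GK K →* GL (Fin n) F}

/-- the automorphisms of `ℂ` over `E` -/
abbrev Gam (E : Subfield ℂ) : Type := {τ : ℂ ≃+* ℂ // ∀ x ∈ E, τ x = x}

/-- the representation itself -/
noncomputable abbrev rho1 (ρ : (ℂ ≃+* ℂ) → GK K →* GL (Fin n) F) : GK K →* GL (Fin n) F := ρ (RingEquiv.refl ℂ)

theorem one_fix : ∀ x ∈ E, (RingEquiv.refl ℂ) x = x := fun x _ => rfl

theorem Sys.coeff (D : Sys E ι S P ρ) (τ : Gam E) {v : HeightOneSpectrum (𝓞 K)} (hv : v ∉ S) {σ : GK K}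
    (hσ : IsFrob v σ) (j : ℕ) : (ρ τ.1 σ : Matrix (Fin n) (Fin n) F).charpoly.coeff j = ι (τ.1 ((P v).coeff j)) := by
  rw [D.frob τ.1 τ.2 v hv σ hσ, Polynomial.coeff_map]
  rfl

theorem Sys.coeff1 (D : Sys E ι S P ρ) {v : HeightOneSpectrum (𝓞 K)} (hv : v ∉ S) {σ : GK K}
    (hσ : IsFrob v σ) (j : ℕ) : (rho1 ρ σ : Matrix (Fin n) (Fin n) F).charpoly.coeff j = ι ((P v).coeff j) :=
  D.coeff ⟨RingEquiv.refl ℂ, one_fix⟩ hv hσ j

/-- the elements whose traces agree -/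
def Zs (ρ : (ℂ ≃+* ℂ) → GK K →* GL (Fin n) F) (τ : ℂ ≃+* ℂ) : Set (GK K) :=
  {x | (rho1 ρ x⁻¹ : Matrix (Fin n) (Fin n) F).trace = (ρ τ x⁻¹ : Matrix (Fin n) (Fin n) F).trace}

theorem Sys.closed (D : Sys E ι S P ρ) (τ : Gam E) : IsClosed (Zs ρ τ.1) := by
  have h1 : ∀ τ : Gam E, Continuous fun x : GK K => (ρ τ.1 x⁻¹ : Matrix (Fin n) (Fin n) F).trace := fun τ =>
    ((Units.continuous_val.comp (D.cont τ.1 τ.2)).comp continuous_inv).matrix_trace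
  exact isClosed_eq (h1 ⟨RingEquiv.refl ℂ, one_fix⟩) (h1 τ)

theorem Sys.mem_Z (D : Sys E ι S P ρ) (τ : Gam E) {v : HeightOneSpectrum (𝓞 K)} (hv : v ∉ S)
    (ht : (P v).coeff (n - 1) ∈ E) {σ : GK K} (hσ : IsFrob v σ) : σ⁻¹ ∈ Zs ρ τ.1 := by
  show (rho1 ρ (σ⁻¹)⁻¹ : Matrix (Fin n) (Fin n) F).trace = (ρ τ.1 (σ⁻¹)⁻¹ : Matrix (Fin n) (Fin n) F).trace
  rw [inv_inv, trace_coeff D.pos, trace_coeff D.pos, D.coeff τ hv hσ, D.coeff1 hv hσ, τ.2 _ ht]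

/-- the elements whose trace is zero -/
def Bs (ρ : (ℂ ≃+* ℂ) → GK K →* GL (Fin n) F) : Set (GK K) :=
  {x | (rho1 ρ x⁻¹ : Matrix (Fin n) (Fin n) F).trace = 0}

theorem Sys.closedB (D : Sys E ι S P ρ) : IsClosed (Bs ρ) := by
  have h1 : Continuous fun x : GK K => (rho1 ρ x⁻¹ : Matrix (Fin n) (Fin n) F).trace :=
    ((Units.continuous_val.comp (D.cont _ one_fix)).comp continuous_inv).matrix_trace
  exact isClosed_singleton.preimage h1

/-- the twisting characters -/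
structure Tw (E : Subfield ℂ) (ρ : (ℂ ≃+* ℂ) → GK K →* GL (Fin n) F) (χ : Gam E → GK K →* F) : Prop where
  op : ∀ τ, IsOpen ((χ τ).ker : Set (GK K))
  tw : ∀ τ, ∃ A B : Matrix (Fin n) (Fin n) F, B * A = 1 ∧
    ∀ g, (ρ τ.1 g : Matrix (Fin n) (Fin n) F) = χ τ g • (A * (rho1 ρ g : Matrix (Fin n) (Fin n) F) * B)

theorem Tw.coeff [Infinite F] {χ : Gam E → GK K →* F} (T : Tw E ρ χ) (τ : Gam E) (g : GK K) (j : ℕ) :
    (ρ τ.1 g : Matrix (Fin n) (Fin n) F).charpoly.coeff j =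
      (rho1 ρ g : Matrix (Fin n) (Fin n) F).charpoly.coeff j * χ τ g ^ (n - j) := by
  obtain ⟨A, B, hBA, h⟩ := T.tw τ
  rw [h, coeff_twist hBA (char_ne _ _)]

theorem Tw.trace {χ : Gam E → GK K →* F} (T : Tw E ρ χ) (τ : Gam E) (g : GK K) :
    (ρ τ.1 g : Matrix (Fin n) (Fin n) F).trace = χ τ g * (rho1 ρ g : Matrix (Fin n) (Fin n) F).trace := by
  obtain ⟨A, B, hBA, h⟩ := T.tw τ
  rw [h, trace_smul, Matrix.trace_mul_comm, ← mul_assoc, hBA, one_mul, smul_eq_mul]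

theorem mem_of_Z {χ : Gam E → GK K →* F} (T : Tw E ρ χ) (τ : Gam E) {x : GK K} (hx : x ∈ Zs ρ τ.1)
    (hB : x ∉ Bs ρ) : x ∈ (χ τ).ker := by
  have h1 : (rho1 ρ x⁻¹ : Matrix (Fin n) (Fin n) F).trace = (ρ τ.1 x⁻¹ : Matrix (Fin n) (Fin n) F).trace := hx
  rw [T.trace] at h1
  have h2 : χ τ x⁻¹ = 1 := by
    have h3 : (χ τ x⁻¹ - 1) * (rho1 ρ x⁻¹ : Matrix (Fin n) (Fin n) F).trace = 0 := by
      rw [sub_mul, one_mul, ← h1, sub_self]
    rcases mul_eq_zero.1 h3 with h | h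
    · exact sub_eq_zero.1 h
    · exact absurd h hB
  have h4 : x⁻¹ ∈ (χ τ).ker := MonoidHom.mem_ker.2 h2
  exact (Subgroup.inv_mem_iff _).1 h4

/-- the key relation -/
theorem Sys.key (D : Sys E ι S P ρ) {χ : Gam E → GK K →* F} (T : Tw E ρ χ) (τ : Gam E)
    {v : HeightOneSpectrum (𝓞 K)} (hv : v ∉ S) {σ : GK K} (hσ : IsFrob v σ) (j : ℕ) :
    ι (τ.1 ((P v).coeff j)) = ι ((P v).coeff j) * χ τ σ ^ (n - j) := by
  haveI : Infinite F := Infinite.of_injective ι ι.injective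
  rw [← D.coeff τ hv hσ, T.coeff, D.coeff1 hv hσ]

/-- elements fixed by all automorphisms over `E` -/
theorem mem_E {z : ℂ} (h : ∀ τ : Gam E, ι (τ.1 z) = ι z) : z ∈ E := by
  by_contra hz
  obtain ⟨σ, h1, h2⟩ := Pool.Agent.TH119.MX.exists_move hz
  exact h2 (ι.injective (h ⟨σ, h1⟩))

end Pool.Agent.X320.CF
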