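import Pool.Agent.X320.CF.Twist
import Pool.Agent.X320.DS.Pos

/-! Representations of compact groups whose traces agree on a set of positive measure. -/

set_option autoImplicit false
set_option linter.all false

namespace Pool.Agent.X320.CF

open MeasureTheory Topology Matrix Module Pool.Agent.X320.DS

variable {G : Type*} [Group G] [TopologicalSpace G] [IsTopologicalGroup G] [CompactSpace G] [MeasurableSpace G]
  [BorelSpace G] {F : Type*} [Field F] [TopologicalSpace F] [IsTopologicalRing F] [T2Space F] {n m : ℕ}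

theorem coset_pair (μ : Measure G) [IsProbabilityMeasure μ] [μ.IsMulLeftInvariant] {ρ : G →* GL (Fin n) F}
    {θ : G →* GL (Fin m) F} (hρ : Continuous ρ) (hθ : Continuous θ) (f : G → F) (hf : f ∈ algT ρ ⊔ algT θ)
    (hμ : μ {x | f x = 0} ≠ 0) : ∃ H : Subgroup G, IsOpen (H : Set G) ∧ ∃ x₀, ∀ h ∈ H, f (h * x₀) = 0 := by
  set A : Subalgebra F (G → F) := algT ρ ⊔ algT θ with hA
  have hρA : algT ρ ≤ A := le_sup_left
  have hθA : algT θ ≤ A := le_sup_right
  have hAc : A ≤ contAlg G F := sup_le (algT_cont hρ) (algT_cont hθ)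
  haveI hAN : IsNoetherianRing A := by
    have h1 : A.FG := (algT_fg ρ).sup (algT_fg θ)
    haveI : Algebra.FiniteType F A := A.fg_iff_finiteType.1 h1
    exact Algebra.FiniteType.isNoetherianRing F A
  have hcl : ∀ f ∈ A, IsClosed {x | f x = 0} := fun f hf => isClosed_singleton.preimage (hAc hf)
  have htr : ∀ g : G, ∀ f ∈ A, (fun x => f (g * x)) ∈ A := by
    intro g f hf
    have h1 : A ≤ A.comap (compHom fun x => g * x) :=
      sup_le (fun f hf => hρA (left_mem ρ g hf)) (fun f hf => hθA (left_mem θ g hf))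
    exact h1 hf
  obtain ⟨H0, hH0, x0, hx0⟩ := exists_coset μ A hcl htr {f} (fun f' hf' => by
    rw [Set.mem_singleton_iff] at hf'
    rw [hf']
    exact hf) (by
    have e : {x | ∀ f' ∈ ({f} : Set (G → F)), f' x = 0} = {g | f g = 0} := by
      ext x
      simp
    rwa [e])
  exact ⟨H0, hH0, x0, fun h hh => hx0 h hh f rfl⟩

omit [CompactSpace G] [MeasurableSpace G] [BorelSpace G] [TopologicalSpace G] [IsTopologicalGroup G]
  [TopologicalSpace F] [IsTopologicalRing F] [T2Space F] in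
theorem inv_trace_mem (θ : G →* GL (Fin m) F) :
    (fun x => (θ x⁻¹ : Matrix (Fin m) (Fin m) F).trace) ∈ algT θ :=
  sum_fun_mem _ fun i => ent_inv_mem θ i i

/-- the trace of a strongly irreducible representation vanishes on a null set only -/
theorem null_tr (μ : Measure G) [IsProbabilityMeasure μ] [μ.IsMulLeftInvariant] (hn : 0 < n)
    {ρ : G →* GL (Fin n) F} (hρ : Continuous ρ) (hs : ∀ H : Subgroup G, IsOpen (H : Set G) → Spans ρ H) :
    μ {x | (ρ x⁻¹ : Matrix (Fin n) (Fin n) F).trace = 0} = 0 := by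
  by_contra hμ
  obtain ⟨H, hH, x₀, hx₀⟩ := coset_pair μ hρ hρ (fun x => (ρ x⁻¹ : Matrix (Fin n) (Fin n) F).trace)
    ((le_sup_left : algT ρ ≤ _) (inv_trace_mem ρ)) hμ
  have h1 : (ρ x₀⁻¹ : Matrix (Fin n) (Fin n) F) = 0 := by
    apply ext_tr
    intro X
    have hX : X ∈ Submodule.span F ((fun h => (ρ h : Matrix (Fin n) (Fin n) F)) '' (H : Set G)) := by
      rw [hs H hH]
      trivial
    refine Submodule.span_induction (p := fun X _ => (X * (ρ x₀⁻¹ : Matrix (Fin n) (Fin n) F)).trace = 0) ?_ ?_ ?_ ?_ hX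
    · rintro _ ⟨h, hh, rfl⟩
      have h2 := hx₀ h⁻¹ (H.inv_mem hh)
      have e : (h⁻¹ * x₀)⁻¹ = x₀⁻¹ * h := by group
      simp only [e] at h2
      rw [map_mul, Units.val_mul, Matrix.trace_mul_comm] at h2
      exact h2
    · simp
    · intro a b _ _ ha hb
      rw [add_mul, trace_add, ha, hb, add_zero]
    · intro c a _ ha
      rw [smul_mul_assoc, trace_smul, ha, smul_zero]
  haveI : Nonempty (Fin n) := ⟨⟨0, hn⟩⟩
  have h2 : (ρ x₀⁻¹ : Matrix (Fin n) (Fin n) F) * (ρ x₀ : Matrix (Fin n) (Fin n) F) = 1 := by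
    rw [← Units.val_mul, ← map_mul, inv_mul_cancel, map_one, Units.val_one]
  rw [h1, zero_mul] at h2
  exact zero_ne_one h2

/-- **Strong multiplicity one.** -/
theorem twist_of_pos (μ : Measure G) [IsProbabilityMeasure μ] [μ.IsMulLeftInvariant] (hn : 0 < n)
    {ρ θ : G →* GL (Fin n) F} (hρ : Continuous ρ) (hθ : Continuous θ)
    (hs : ∀ H : Subgroup G, IsOpen (H : Set G) → Spans ρ H)
    (hμ : μ {x | (ρ x⁻¹ : Matrix (Fin n) (Fin n) F).trace = (θ x⁻¹ : Matrix (Fin n) (Fin n) F).trace} ≠ 0) :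
    ∃ (P Q : Matrix (Fin n) (Fin n) F) (χ : G →* F) (H : Subgroup G), H.Normal ∧ IsOpen (H : Set G) ∧
      (∀ h ∈ H, χ h = 1) ∧ P * Q = 1 ∧ Q * P = 1 ∧
      ∀ g, (θ g : Matrix (Fin n) (Fin n) F) = χ g • (P * (ρ g : Matrix (Fin n) (Fin n) F) * Q) := by
  have e0 : {x | (ρ x⁻¹ : Matrix (Fin n) (Fin n) F).trace = (θ x⁻¹ : Matrix (Fin n) (Fin n) F).trace} =
      {x | (fun x => (ρ x⁻¹ : Matrix (Fin n) (Fin n) F).trace - (θ x⁻¹ : Matrix (Fin n) (Fin n) F).trace) x = 0} := by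
    ext x
    exact sub_eq_zero.symm
  rw [e0] at hμ
  obtain ⟨H₀, hH₀, x₀, hx₀⟩ := coset_pair μ hρ hθ
    (fun x => (ρ x⁻¹ : Matrix (Fin n) (Fin n) F).trace - (θ x⁻¹ : Matrix (Fin n) (Fin n) F).trace)
    (Subalgebra.sub_mem _ ((le_sup_left : algT ρ ≤ _) (inv_trace_mem ρ))
      ((le_sup_right : algT θ ≤ _) (inv_trace_mem θ))) hμ
  haveI : Finite (G ⧸ H₀) := Subgroup.quotient_finite_of_isOpen _ hH₀
  haveI : H₀.FiniteIndex := Subgroup.finiteIndex_of_finite_quotient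
  have hHo : IsOpen (H₀.normalCore : Set G) :=
    H₀.normalCore.isOpen_of_isClosed_of_finiteIndex (H₀.normalCore_isClosed (H₀.isClosed_of_isOpen hH₀))
  have hy : ∀ h ∈ H₀.normalCore, (ρ (x₀⁻¹ * h) : Matrix (Fin n) (Fin n) F).trace =
      (θ (x₀⁻¹ * h) : Matrix (Fin n) (Fin n) F).trace := fun h hh => by
    have h2 := hx₀ h⁻¹ (H₀.inv_mem (H₀.normalCore_le hh))
    have e : (h⁻¹ * x₀)⁻¹ = x₀⁻¹ * h := by group
    simp only [e] at h2
    exact sub_eq_zero.1 h2
  have hs' := spans_right (hs _ hHo) hy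
  obtain ⟨P, Q, hPQ, hQP, hc⟩ := exists_conj (hs _ hHo) hs' hy
  obtain ⟨χ, hχ, hχ2⟩ := exists_char hn hs' hPQ hQP hc
  exact ⟨P, Q, χ, H₀.normalCore, inferInstance, hHo, hχ, hPQ, hQP, hχ2⟩

end Pool.Agent.X320.CF
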